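import Pool.Agent.V1169.Boole2
import Pool.Agent.V1169.Arcosh

/-! # `MP_ab13d2_an`, Q1: a parabolic semigroup of positive hyperbolic step whose tangential speed is
at most `(1/4) log t + C`

In the upper half-plane the semigroup is `u ↦ cosh √(arcosh u ^ 2 + t)`.
-/

set_option autoImplicit false

open Set Filter Topology Complex Metric Pool.Agent.V1169.Boole Pool.Agent.V1169.Arcosh

namespace Pool.Agent.Results.MP_ab13d2_an.TangentialSpeed

/-- The hyperbolic distance of the unit disc, normalised as in the problem. -/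
noncomputable def hyp (z w : ℂ) : ℝ :=
  1 / 2 * Real.log ((1 + ‖(z - w) / (1 - (starRingEnd ℂ) z * w)‖) /
    (1 - ‖(z - w) / (1 - (starRingEnd ℂ) z * w)‖))

/-- Continuous one-parameter semigroups of holomorphic self-maps of the unit disc. -/
structure IsSemigroup (φ : ℝ → ℂ → ℂ) : Prop where
  differentiableOn : ∀ t, 0 ≤ t → DifferentiableOn ℂ (φ t) (ball 0 1)
  mapsTo : ∀ t, 0 ≤ t → MapsTo (φ t) (ball 0 1) (ball 0 1)
  zero : ∀ z ∈ ball (0:ℂ) 1, φ 0 z = z
  add : ∀ t s, 0 ≤ t → 0 ≤ s → ∀ z ∈ ball (0:ℂ) 1, φ (t + s) z = φ t (φ s z)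
  continuous : ∀ t₀, 0 ≤ t₀ → TendstoLocallyUniformlyOn φ (φ t₀) (𝓝[Ici 0] t₀) (ball 0 1)

/-- No map of the semigroup with positive parameter has a fixed point in the disc. -/
def NonElliptic (φ : ℝ → ℂ → ℂ) : Prop := ∀ t, 0 < t → ∀ z ∈ ball (0:ℂ) 1, φ t z ≠ z

/-- Koenigs functions. -/
structure IsKoenigs (φ : ℝ → ℂ → ℂ) (h : ℂ → ℂ) : Prop where
  differentiableOn : DifferentiableOn ℂ h (ball 0 1)
  injOn : InjOn h (ball 0 1)
  map : ∀ t, 0 ≤ t → ∀ z ∈ ball (0:ℂ) 1, h (φ t z) = h z + I * t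

/-- The union of the downward translates of the image of the disc. -/
def Omega (h : ℂ → ℂ) : Set ℂ := ⋃ t ∈ Ici (0:ℝ), (fun w => w - I * t) '' (h '' ball 0 1)

/-- The tangential speed relative to `τ`: the hyperbolic distance of `φ t 0` to the diameter
`(-1, 1) τ`. -/
noncomputable def vT (φ : ℝ → ℂ → ℂ) (τ : ℂ) (t : ℝ) : ℝ :=
  ⨅ r : Ioo (-1 : ℝ) 1, hyp (φ t 0) ((r : ℝ) * τ)

theorem mem_ball' {z : ℂ} : z ∈ ball (0:ℂ) 1 ↔ ‖z‖ < 1 := by simp

theorem hyp_nonneg (z w : ℂ) : 0 ≤ hyp z w := by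
  unfold hyp
  set T := ‖(z - w) / (1 - (starRingEnd ℂ) z * w)‖ with hT
  have hT0 : 0 ≤ T := norm_nonneg _
  refine mul_nonneg (by norm_num) ?_
  rcases eq_or_ne (1 - T) 0 with h | h
  · rw [h, div_zero, Real.log_zero]
  · rw [← Real.log_abs]
    refine Real.log_nonneg ?_
    rw [abs_div, one_le_div (abs_pos.2 h), abs_of_nonneg (by linarith : 0 ≤ 1 + T)]
    exact abs_le.2 ⟨by linarith, by linarith⟩

/-- The semigroup. -/
noncomputable def phi (t : ℝ) (z : ℂ) : ℂ := icay (psi t (cay z))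

theorem cay_phi {z : ℂ} (hz : ‖z‖ < 1) {t : ℝ} (ht : 0 ≤ t) : cay (phi t z) = psi t (cay z) := by
  unfold phi
  exact cay_icay (add_I_ne' (psi_im_pos (cay_im_pos hz) ht).le)

theorem norm_phi_lt {z : ℂ} (hz : ‖z‖ < 1) {t : ℝ} (ht : 0 ≤ t) : ‖phi t z‖ < 1 :=
  norm_icay_lt (psi_im_pos (cay_im_pos hz) ht)

theorem differentiableAt_cay {z : ℂ} (hz : 1 - z ≠ 0) : DifferentiableAt ℂ cay z := by
  unfold cay
  refine DifferentiableAt.div (by fun_prop) (by fun_prop) hz

theorem differentiableAt_icay {w : ℂ} (hw : w + I ≠ 0) : DifferentiableAt ℂ icay w := by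
  unfold icay
  refine DifferentiableAt.div (by fun_prop) (by fun_prop) hw

theorem continuousAt_phi {z : ℂ} (hz : ‖z‖ < 1) {t : ℝ} (ht : 0 ≤ t) :
    ContinuousAt (fun p : ℝ × ℂ => phi p.1 p.2) (t, z) := by
  have hu := cay_im_pos hz
  have h1 : ContinuousAt (fun p : ℝ × ℂ => (p.1, cay p.2)) (t, z) := by
    refine ContinuousAt.prodMk continuousAt_fst ?_
    exact ContinuousAt.comp (g := cay) (f := fun p : ℝ × ℂ => p.2)
      (differentiableAt_cay (one_sub_ne hz)).continuousAt continuousAt_snd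
  have h2 : ContinuousAt (fun p : ℝ × ℂ => psi p.1 (cay p.2)) (t, z) :=
    ContinuousAt.comp (g := fun p : ℝ × ℂ => psi p.1 p.2) (f := fun p : ℝ × ℂ => (p.1, cay p.2))
      (continuousAt_psi hu) h1
  exact ContinuousAt.comp (g := icay) (f := fun p : ℝ × ℂ => psi p.1 (cay p.2))
    (differentiableAt_icay (add_I_ne' (psi_im_pos hu ht).le)).continuousAt h2

theorem isSemigroup_phi : IsSemigroup phi := by
  refine ⟨?_, ?_, ?_, ?_, ?_⟩
  · intro t ht z hz
    rw [mem_ball'] at hz
    have hu := cay_im_pos hz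
    have h1 : DifferentiableAt ℂ (fun z => psi t (cay z)) z :=
      DifferentiableAt.comp (g := psi t) (f := cay) z (differentiableAt_psi hu)
        (differentiableAt_cay (one_sub_ne hz))
    exact (DifferentiableAt.comp (g := icay) (f := fun z => psi t (cay z)) z
      (differentiableAt_icay (add_I_ne' (psi_im_pos hu ht).le)) h1).differentiableWithinAt
  · intro t ht z hz
    rw [mem_ball'] at hz ⊢
    exact norm_phi_lt hz ht
  · intro z hz
    rw [mem_ball'] at hz
    unfold phi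
    rw [psi_zero (cay_im_pos hz), icay_cay (one_sub_ne hz)]
  · intro t s ht hs z hz
    rw [mem_ball'] at hz
    have h1 := cay_phi hz hs
    change icay (psi (t + s) (cay z)) = icay (psi t (cay (phi s z)))
    rw [h1, psi_add (cay_im_pos hz) hs]
  · intro t₀ ht₀
    rw [Metric.tendstoLocallyUniformlyOn_iff]
    intro ε hε z hz
    rw [mem_ball'] at hz
    have h1 := continuousAt_phi hz ht₀
    obtain ⟨δ, hδ, h2⟩ := Metric.continuousAt_iff.1 h1 (ε / 2) (by linarith)
    refine ⟨ball z δ, mem_nhdsWithin_of_mem_nhds (ball_mem_nhds z hδ), ?_⟩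
    have h3 : ∀ᶠ t in 𝓝[Ici 0] t₀, dist t t₀ < δ :=
      mem_nhdsWithin_of_mem_nhds (ball_mem_nhds t₀ hδ)
    filter_upwards [h3] with t ht y hy
    have h4 := h2 (x := (t, y)) (by rw [Prod.dist_eq]; exact max_lt ht hy)
    have h5 := h2 (x := (t₀, y)) (by rw [Prod.dist_eq]; exact max_lt (by simpa using hδ) hy)
    calc dist (phi t₀ y) (phi t y) ≤ dist (phi t₀ y) (phi t₀ z) + dist (phi t₀ z) (phi t y) :=
          dist_triangle _ _ _
      _ < ε / 2 + ε / 2 := by
          refine add_lt_add h5 ?_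
          rw [dist_comm]
          exact h4
      _ = ε := by ring

theorem nonElliptic_phi : NonElliptic phi := by
  intro t ht z hz h
  rw [mem_ball'] at hz
  refine psi_ne (cay_im_pos hz) ht ?_
  rw [← cay_phi hz ht.le, h]

/-- The Koenigs function. -/
noncomputable def koe (z : ℂ) : ℂ := I * A (cay z) ^ 2

theorem isKoenigs_koe : IsKoenigs phi koe := by
  refine ⟨?_, ?_, ?_⟩
  · intro z hz
    rw [mem_ball'] at hz
    have h1 : DifferentiableAt ℂ (fun z => A (cay z)) z :=
      DifferentiableAt.comp (g := A) (f := cay) z (differentiableAt_A (cay_im_pos hz))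
        (differentiableAt_cay (one_sub_ne hz))
    exact ((h1.pow 2).const_mul I).differentiableWithinAt
  · intro z hz z' hz' h
    rw [mem_ball'] at hz hz'
    have h1 : A (cay z) ^ 2 = A (cay z') ^ 2 := mul_left_cancel₀ I_ne_zero h
    have hm := A_mem (cay_im_pos hz)
    have hm' := A_mem (cay_im_pos hz')
    have h2 : A (cay z) = A (cay z') := by rw [← Q_of_sq hm.1, ← Q_of_sq hm'.1, h1]
    have h3 : cay z = cay z' := by rw [← cosh_A (cay z), ← cosh_A (cay z'), h2]
    rw [← icay_cay (one_sub_ne hz), ← icay_cay (one_sub_ne hz'), h3]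
  · intro t ht z hz
    rw [mem_ball'] at hz
    unfold koe
    rw [cay_phi hz ht, A_psi (cay_im_pos hz) ht]
    ring

theorem Omega_koe : Omega koe = {w : ℂ | w.re < 0} := by
  ext w
  simp only [Omega, mem_iUnion, mem_ofPred_eq, mem_Ici, exists_prop]
  constructor
  · rintro ⟨t, ht, _, ⟨z, hz, rfl⟩, rfl⟩
    rw [mem_ball'] at hz
    have h1 := sq_im_pos (A_mem (cay_im_pos hz))
    unfold koe
    simp only [sub_re, mul_re, I_re, I_im, ofReal_re, ofReal_im]
    linarith
  · intro hw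
    set v : ℂ := -(I * w) with hv
    have hvim : v.im = -w.re := by simp [hv]
    have hvim0 : 0 < v.im := by rw [hvim]; linarith
    set t : ℝ := |v.re| + v.im ^ 2 with ht
    have ht0 : 0 ≤ t := by positivity
    have him : 0 < (v + t).im := by simpa using hvim0
    obtain ⟨h1, h2⟩ := Q_mem him
    have h3 := Q_sq (v + t)
    have hre := congrArg Complex.re h3
    have him' := congrArg Complex.im h3
    rw [sq, mul_re, add_re, ofReal_re] at hre
    rw [sq, mul_im, add_im, ofReal_im] at him'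
    set a := (Q (v + t)).re
    set b := (Q (v + t)).im
    have h4 : v.im ^ 2 ≤ a ^ 2 := by
      have := neg_abs_le v.re
      nlinarith
    have h5 : v.im ≤ a := by
      by_contra hlt
      push Not at hlt
      nlinarith
    have h6 : b < Real.pi := by
      have h7 : b ≤ 1 := by
        by_contra hlt
        push Not at hlt
        nlinarith
      linarith [Real.pi_gt_three]
    have hS : Q (v + t) ∈ S := ⟨h1, h2, h6⟩
    refine ⟨t, ht0, w + I * t, ⟨icay (cosh (Q (v + t))), ?_, ?_⟩, by ring⟩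
    · rw [mem_ball']
      exact norm_icay_lt (cosh_im_pos hS)
    · unfold koe
      rw [cay_icay (add_I_ne' (cosh_im_pos hS).le), A_cosh hS, Q_sq, hv]
      linear_combination (-w) * I_sq

theorem norm_icay_sub_one {w : ℂ} (hw : w + I ≠ 0) : ‖icay w - 1‖ = 2 / ‖w + I‖ := by
  have h5 : icay w - 1 = -(2 * I) / (w + I) := by
    unfold icay
    field_simp
    ring
  rw [h5, norm_div, norm_neg, norm_mul, norm_I]
  simp

theorem tendsto_phi : TendstoUniformlyOn phi (fun _ => 1) atTop (ball 0 1) := by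
  have hlim : Tendsto (fun t : ℝ => 2 / (√(t - Real.pi ^ 2) - 1)) atTop (𝓝 0) := by
    refine Tendsto.const_div_atTop ?_ 2
    refine tendsto_atTop_add_const_right _ (-1) ?_
    exact Real.tendsto_sqrt_atTop.comp (tendsto_atTop_add_const_right _ (-Real.pi ^ 2) tendsto_id)
  rw [Metric.tendstoUniformlyOn_iff]
  intro ε hε
  filter_upwards [hlim.eventually_lt_const hε, eventually_ge_atTop (Real.pi ^ 2 + 4)] with t ht1 ht2 z hz
  rw [mem_ball'] at hz
  have hπ := Real.pi_pos
  have ht0 : 0 ≤ t := by nlinarith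
  have hu := cay_im_pos hz
  have hS := A_mem hu
  obtain ⟨h1, h2, h3, h4, h5⟩ := sqrt_bounds hS ht0
  set a := (Q (A (cay z) ^ 2 + t)).re with ha
  have h6 : t - Real.pi ^ 2 ≤ a ^ 2 := by
    have := hS.2.2
    have := hS.2.1
    rw [h4]
    nlinarith [sq_nonneg (A (cay z)).re, sq_nonneg (Q (A (cay z) ^ 2 + t)).im]
  have h7 : √(t - Real.pi ^ 2) ≤ a := by
    rw [Real.sqrt_le_left (by linarith [h1.1] : 0 ≤ a)]
    exact h6
  have h8 : √(t - Real.pi ^ 2) ≤ ‖psi t (cay z)‖ := by
    refine h7.trans (le_trans ?_ (sinh_le_norm_cosh _))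
    exact Real.self_le_sinh_iff.2 h1.1.le
  have h9 : 2 ≤ √(t - Real.pi ^ 2) := Real.le_sqrt_of_sq_le (by linarith)
  have h10 : ‖psi t (cay z)‖ - 1 ≤ ‖psi t (cay z) + I‖ := by
    have := norm_sub_le (psi t (cay z) + I) I
    rw [add_sub_cancel_right, norm_I] at this
    linarith
  rw [dist_comm, dist_eq_norm]
  unfold phi
  rw [norm_icay_sub_one (add_I_ne' (psi_im_pos hu ht0).le)]
  refine lt_of_le_of_lt ?_ ht1
  have : 0 < √(t - Real.pi ^ 2) - 1 := by linarith
  gcongr
  linarith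

/-- Upper bound for the distance to the diameter. -/
theorem hyp_le {u : ℂ} (hu : 0 < u.im) :
    hyp (icay u) ((((‖u‖ - 1) / (‖u‖ + 1) : ℝ) : ℂ) * 1) ≤ 1 / 2 * Real.log (4 * (‖u‖ / u.im)) := by
  have hR : 0 < ‖u‖ := norm_pos_iff.2 (ne_zero_of_im hu)
  have him : u.im ≤ ‖u‖ := (le_abs_self _).trans (abs_im_le_norm u)
  set R := ‖u‖ with hRdef
  have hRI : 0 < ((R : ℂ) * I).im := by simpa using hR
  have e1 : (((R - 1) / (R + 1) : ℝ) : ℂ) * 1 = icay (R * I) := by
    unfold icay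
    have h5 : (R : ℂ) * I + I = (R + 1) * I := by ring
    have h6 : (R : ℂ) * I - I = (R - 1) * I := by ring
    rw [h5, h6, mul_div_mul_right _ _ I_ne_zero]
    push_cast
    ring
  have e2 : ‖(icay u - icay (R * I)) / (1 - (starRingEnd ℂ) (icay u) * icay (R * I))‖
      = ‖u - R * I‖ / ‖u + R * I‖ := by
    rw [norm_div, norm_sub_rev, pseudo hRI hu, norm_sub_rev]
    congr 1
    have : (R : ℂ) * I - (starRingEnd ℂ) u = -(starRingEnd ℂ) (u + R * I) := by
      simp
      ring
    rw [this, norm_neg, RCLike.norm_conj]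
  unfold hyp
  rw [e1, e2]
  set T := ‖u - R * I‖ / ‖u + R * I‖ with hT
  have hne : u + R * I ≠ 0 := add_I_ne hR hu
  have hlt : ‖u - R * I‖ < ‖u + R * I‖ := norm_sub_lt hR hu
  have hpos : 0 < ‖u + R * I‖ := norm_pos_iff.2 hne
  have hT1 : T < 1 := (div_lt_one hpos).2 hlt
  have hT0 : 0 ≤ T := by positivity
  have hu2 : u.re ^ 2 + u.im ^ 2 = R ^ 2 := by
    rw [hRdef, ← normSq_eq_norm_sq, normSq_apply]
    ring
  have e3 : ‖u - R * I‖ ^ 2 = 2 * R * (R - u.im) := by
    rw [← normSq_eq_norm_sq, normSq_apply]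
    simp only [sub_re, sub_im, mul_re, mul_im, ofReal_re, ofReal_im, I_re, I_im]
    linear_combination hu2
  have e4 : ‖u + R * I‖ ^ 2 = 2 * R * (R + u.im) := by
    rw [← normSq_eq_norm_sq, normSq_apply]
    simp only [add_re, add_im, mul_re, mul_im, ofReal_re, ofReal_im, I_re, I_im]
    linear_combination hu2
  have e5 : T ^ 2 = (R - u.im) / (R + u.im) := by
    rw [hT, div_pow, e3, e4]
    have : R + u.im ≠ 0 := by linarith
    field_simp
  have e6 : u.im / (2 * R) ≤ 1 - T := by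
    have h1 : 1 - T ^ 2 = 2 * u.im / (R + u.im) := by
      rw [e5]
      have : R + u.im ≠ 0 := by linarith
      field_simp
      ring
    have h2 : 1 - T ^ 2 ≤ 2 * (1 - T) := by nlinarith
    have h3 : u.im / R ≤ 2 * u.im / (R + u.im) := by
      rw [div_le_div_iff₀ hR (by linarith)]
      nlinarith
    have h4 : u.im / (2 * R) = u.im / R / 2 := by field_simp
    rw [h4]
    linarith
  have e7 : (1 + T) / (1 - T) ≤ 4 * (R / u.im) := by
    rw [div_le_iff₀ (by linarith)]
    have h1 : 4 * (R / u.im) * (u.im / (2 * R)) = 2 := by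
      field_simp
      norm_num
    have h2 : 4 * (R / u.im) * (u.im / (2 * R)) ≤ 4 * (R / u.im) * (1 - T) :=
      mul_le_mul_of_nonneg_left e6 (by positivity)
    linarith
  have e8 : 0 < (1 + T) / (1 - T) := div_pos (by linarith) (by linarith)
  have := Real.log_le_log e8 e7
  linarith

theorem cay_zero : cay 0 = I := by simp [cay]

theorem exists_bound : ∃ C : ℝ, ∀ t, 1 ≤ t → vT phi 1 t ≤ 1 / 4 * Real.log t + C := by
  have hS := A_mem (u := I) (by simp)
  obtain ⟨hx, hy, hyπ⟩ := hS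
  have hy0 : (A I).im = Real.pi / 2 := by
    have h1 := congrArg Complex.re (cosh_A I)
    rw [cosh_re', I_re] at h1
    have h2 := Real.cosh_pos (A I).re
    have h3 : Real.cos (A I).im = 0 := by
      rcases mul_eq_zero.1 h1 with h | h
      · linarith
      · exact h
    exact Real.injOn_cos ⟨hy.le, hyπ.le⟩ ⟨by positivity, by linarith [Real.pi_pos]⟩
      (by rw [h3, Real.cos_pi_div_two])
  set x₀ := (A I).re with hx₀
  set c : ℝ := Real.sinh x₀ / Real.cosh x₀ * x₀ / √(x₀ ^ 2 + 1) with hc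
  have hsinh0 : 0 < Real.sinh x₀ := Real.sinh_pos_iff.2 hx
  have hcosh0 := Real.cosh_pos x₀
  have hc0 : 0 < c := by positivity
  refine ⟨1 / 2 * Real.log (4 / c), fun t ht => ?_⟩
  have ht0 : 0 ≤ t := by linarith
  have htpos : 0 < t := by linarith
  have hu : 0 < (psi t I).im := psi_im_pos (by simp) ht0
  set u := psi t I with hudef
  have hR : 0 < ‖u‖ := norm_pos_iff.2 (ne_zero_of_im hu)
  have h0 : phi t 0 = icay u := by
    unfold phi
    rw [cay_zero]
  -- the point on the diameter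
  have hr : (‖u‖ - 1) / (‖u‖ + 1) ∈ Ioo (-1 : ℝ) 1 := by
    constructor
    · rw [lt_div_iff₀ (by linarith)]; linarith
    · rw [div_lt_iff₀ (by linarith)]; linarith
  have h1 : vT phi 1 t ≤ hyp (phi t 0) ((((‖u‖ - 1) / (‖u‖ + 1) : ℝ) : ℂ) * 1) := by
    refine ciInf_le (f := fun r : Ioo (-1 : ℝ) 1 => hyp (phi t 0) (((r : ℝ) : ℂ) * 1))
      ⟨0, ?_⟩ ⟨_, hr⟩
    rintro _ ⟨r, rfl⟩
    exact hyp_nonneg _ _
  rw [h0] at h1
  have h2 := hyp_le hu
  -- the estimate of `‖u‖ / u.im`
  obtain ⟨g1, g2, g3, g4, g5⟩ := sqrt_bounds (A_mem (u := I) (by simp)) ht0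
  set a := (Q (A I ^ 2 + t)).re with ha
  set b := (Q (A I ^ 2 + t)).im with hb
  have ha0 : 0 < a := g1.1
  have hb0 : 0 < b := g1.2.1
  rw [hy0] at g3 g4 g5
  have him : u.im = Real.sinh a * Real.sin b := cosh_im' _
  have hnorm : ‖u‖ ≤ Real.cosh a := by
    have e1 : ‖u‖ ^ 2 ≤ Real.cosh a ^ 2 := by
      rw [← normSq_eq_norm_sq, normSq_apply, him]
      have e2 : u.re = Real.cosh a * Real.cos b := cosh_re' _
      rw [e2]
      have e3 := Real.cosh_sq a
      have e4 := Real.sin_sq_add_cos_sq b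
      nlinarith [sq_nonneg (Real.sin b)]
    by_contra hlt
    push Not at hlt
    have := Real.cosh_pos a
    nlinarith
  have hsinb : 2 / Real.pi * b ≤ Real.sin b := Real.mul_le_sin hb0.le g3
  have hbval : 2 / Real.pi * b = x₀ / a := by
    have hπ := Real.pi_pos
    field_simp
    linarith
  have ha2 : a ≤ √(x₀ ^ 2 + 1) * √t := by
    rw [← Real.sqrt_mul (by positivity)]
    refine Real.le_sqrt_of_sq_le ?_
    have : b ^ 2 ≤ (Real.pi / 2) ^ 2 := pow_le_pow_left₀ hb0.le g3 2
    nlinarith [sq_nonneg x₀]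
  have hsinha : 0 < Real.sinh a := Real.sinh_pos_iff.2 ha0
  have hcosha := Real.cosh_pos a
  have htanh : Real.sinh x₀ / Real.cosh x₀ ≤ Real.sinh a / Real.cosh a := by
    rw [div_le_div_iff₀ hcosh0 hcosha]
    have e1 : 0 ≤ Real.sinh (a - x₀) := Real.sinh_nonneg_iff.2 (by linarith)
    rw [Real.sinh_sub] at e1
    linarith
  have hratio : c / √t ≤ u.im / ‖u‖ := by
    have e1 : c / √t ≤ Real.sinh a / Real.cosh a * (x₀ / a) := by
      have e2 : c / √t = Real.sinh x₀ / Real.cosh x₀ * (x₀ / (√(x₀ ^ 2 + 1) * √t)) := by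
        rw [hc]
        field_simp
      rw [e2]
      have e3 : x₀ / (√(x₀ ^ 2 + 1) * √t) ≤ x₀ / a := by gcongr
      exact mul_le_mul htanh e3 (by positivity) (by positivity)
    refine e1.trans ?_
    rw [him, ← hbval]
    calc Real.sinh a / Real.cosh a * (2 / Real.pi * b) ≤ Real.sinh a / Real.cosh a * Real.sin b := by
          gcongr
      _ = Real.sinh a * Real.sin b / Real.cosh a := by ring
      _ ≤ Real.sinh a * Real.sin b / ‖u‖ := by
          have : 0 < Real.sinh a * Real.sin b := by rw [← him]; exact hu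
          gcongr
  have hratio' : ‖u‖ / u.im ≤ √t / c := by
    have e1 : 0 < √t := Real.sqrt_pos.2 htpos
    rw [div_le_div_iff₀ hu hc0]
    rw [div_le_div_iff₀ e1 hR] at hratio
    linarith
  have h3 : Real.log (4 * (‖u‖ / u.im)) ≤ Real.log (4 / c * √t) := by
    refine Real.log_le_log (by positivity) ?_
    calc 4 * (‖u‖ / u.im) ≤ 4 * (√t / c) := by gcongr
      _ = 4 / c * √t := by ring
  have h4 : Real.log (4 / c * √t) = Real.log (4 / c) + 1 / 2 * Real.log t := by
    rw [Real.log_mul (by positivity) (Real.sqrt_pos.2 htpos).ne', Real.log_sqrt htpos.le]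
    ring
  linarith

/-- **Disproof of the statement of Q1.** -/
theorem result : ∃ φ : ℝ → ℂ → ℂ, IsSemigroup φ ∧ NonElliptic φ ∧
    (∃ h : ℂ → ℂ, IsKoenigs φ h ∧ Omega h = {w : ℂ | w.re < 0}) ∧
    TendstoUniformlyOn φ (fun _ => 1) atTop (ball 0 1) ∧
    (∃ C : ℝ, ∀ t, 1 ≤ t → vT φ 1 t ≤ 1 / 4 * Real.log t + C) ∧
    Tendsto (fun t => vT φ 1 t - 1 / 2 * Real.log t) atTop atBot := by
  refine ⟨phi, isSemigroup_phi, nonElliptic_phi, ⟨koe, isKoenigs_koe, Omega_koe⟩, tendsto_phi,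
    exists_bound, ?_⟩
  obtain ⟨C, hC⟩ := exists_bound
  have h1 : Tendsto (fun t : ℝ => C - 1 / 4 * Real.log t) atTop atBot := by
    have h2 : Tendsto (fun t : ℝ => 1 / 4 * Real.log t) atTop atTop :=
      Real.tendsto_log_atTop.const_mul_atTop (by norm_num)
    have h3 : Tendsto (fun t : ℝ => -(1 / 4 * Real.log t)) atTop atBot :=
      tendsto_neg_atTop_atBot.comp h2
    have h4 := tendsto_atBot_add_const_left atTop C h3
    refine h4.congr fun t => ?_
    ring
  refine tendsto_atBot_mono' _ ?_ h1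
  filter_upwards [eventually_ge_atTop 1] with t ht
  have := hC t ht
  linarith

end Pool.Agent.Results.MP_ab13d2_an.TangentialSpeed
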